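import Pool.Agent.Y190.OP.Zf

/-! Division of a vector of entire functions by its common zeros. -/

set_option autoImplicit false

open Filter Topology Metric Set

namespace Pool.Agent.K7.H11.LM

open Pool.Agent.Y190.AN (weier order_nat)
open Pool.Agent.Y190.OP

variable {N : ℕ}

/-- A vector of entire functions, not all zero, is the product of an entire function and of a vector
of entire functions without common zeros. -/
theorem factor {F : ℂ → Fin N → ℂ} (hF : Differentiable ℂ F) {z0 : ℂ} (hz0 : F z0 ≠ 0) :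
    ∃ (h : ℂ → ℂ) (G : ℂ → Fin N → ℂ), Differentiable ℂ h ∧ Differentiable ℂ G ∧
      (∀ z, G z ≠ 0) ∧ (∀ z, F z = h z • G z) ∧ h z0 ≠ 0 := by
  classical
  have hFj : ∀ j, Differentiable ℂ fun z => F z j := fun j => differentiable_pi.1 hF j
  obtain ⟨j1, hj1⟩ := Function.ne_iff.1 hz0
  let T : Finset (Fin N) := Finset.univ.filter fun j => ∃ z, F z j ≠ 0
  have hTne : T.Nonempty := ⟨j1, Finset.mem_filter.2 ⟨Finset.mem_univ _, z0, hj1⟩⟩
  have hμ : ∀ z : ℂ, ∃ μ : ℤ,
      (∀ j ∈ T, μ ≤ (meromorphicOrderAt (fun z => F z j) z).untop₀) ∧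
        ∃ j ∈ T, (meromorphicOrderAt (fun z => F z j) z).untop₀ = μ := by
    intro z
    obtain ⟨j0, hj0, hmin⟩ := Finset.exists_min_image T
      (fun j => (meromorphicOrderAt (fun z => F z j) z).untop₀) hTne
    exact ⟨_, fun j hj => hmin j hj, j0, hj0, rfl⟩
  choose μ hμ1 hμ2 using hμ
  have hTne' : ∀ j ∈ T, ∀ z, meromorphicOrderAt (fun z => F z j) z ≠ ⊤ := fun j hj z =>
    ord_ne_top (hFj j) (Finset.mem_filter.1 hj).2 z
  have hμ0 : ∀ z, 0 ≤ μ z := by
    intro z
    obtain ⟨j, hj, hj'⟩ := hμ2 z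
    have h1 : 0 ≤ meromorphicOrderAt (fun z => F z j) z :=
      ((hFj j).analyticAt z).meromorphicOrderAt_nonneg
    obtain ⟨a, ha⟩ := WithTop.ne_top_iff_exists.1 (hTne' j hj z)
    rw [← ha] at hj' h1
    have h4 : a = μ z := hj'
    rw [← h4]
    exact_mod_cast h1
  obtain ⟨h, hhd, hho⟩ := weier (fun z => (μ z).toNat) fun ρ => by
    have h1 : (⋃ j, {z : ℂ | ‖z‖ ≤ ρ ∧
        (meromorphicOrderAt (fun z => F z j) z).untop₀ ≠ 0}).Finite :=
      Set.finite_iUnion fun j => ord_finite (hFj j) ρ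
    refine h1.subset ?_
    rintro z ⟨h2, h3⟩
    obtain ⟨j, hj, hj'⟩ := hμ2 z
    rw [mem_iUnion]
    refine ⟨j, h2, ?_⟩
    rw [hj']
    intro h0
    exact h3 (by rw [h0]; rfl)
  have hord : ∀ z, meromorphicOrderAt h z = (μ z : WithTop ℤ) := by
    intro z
    rw [order_nat hhd hho]
    have := hμ0 z
    congr 1
    omega
  have hhM : ∀ z, MeromorphicAt h z := fun z => (hhd.analyticAt z).meromorphicAt
  have hFM : ∀ j z, MeromorphicAt (fun z => F z j) z := fun j z =>
    ((hFj j).analyticAt z).meromorphicAt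
  have hq : ∀ j, MeromorphicOn ((fun z => F z j) / h) univ := fun j z _ => (hFM j z).div (hhM z)
  set G : ℂ → Fin N → ℂ := fun z j => toMeromorphicNFOn ((fun z => F z j) / h) univ z with hGd
  have hNF : ∀ j, MeromorphicNFOn (fun z => G z j) univ := fun j =>
    meromorphicNFOn_toMeromorphicNFOn _ univ
  have hGord : ∀ j z, meromorphicOrderAt (fun z => G z j) z =
      meromorphicOrderAt (fun z => F z j) z - meromorphicOrderAt h z := by
    intro j z
    have h1 := meromorphicOrderAt_toMeromorphicNFOn (hq j) (mem_univ z)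
    change meromorphicOrderAt (toMeromorphicNFOn ((fun z => F z j) / h) univ) z = _
    rw [h1, meromorphicOrderAt_div (hFM j z) (hhM z)]
  have hGa : ∀ z j, AnalyticAt ℂ (fun z => G z j) z := by
    intro z j
    rw [← (hNF j (mem_univ z)).meromorphicOrderAt_nonneg_iff_analyticAt, hGord j z, hord z]
    by_cases hj : j ∈ T
    · have h1 := hμ1 z j hj
      obtain ⟨a, ha⟩ := WithTop.ne_top_iff_exists.1 (hTne' j hj z)
      rw [← ha] at h1 ⊢
      have e : (a : WithTop ℤ) - (μ z : WithTop ℤ) = ((a - μ z : ℤ) : WithTop ℤ) := rfl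
      rw [e]
      have h3 : μ z ≤ a := h1
      exact_mod_cast (sub_nonneg.2 h3)
    · have h1 : meromorphicOrderAt (fun z => F z j) z = ⊤ := by
        rw [meromorphicOrderAt_eq_top_iff]
        refine Eventually.of_forall fun w => ?_
        by_contra hne
        exact hj (Finset.mem_filter.2 ⟨Finset.mem_univ _, w, hne⟩)
      rw [h1]
      exact le_top
  have hGd' : Differentiable ℂ G := by
    rw [differentiable_pi]
    exact fun j z => (hGa z j).differentiableAt
  have hG0 : ∀ z, G z ≠ 0 := by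
    intro z h0
    obtain ⟨j, hj, hj'⟩ := hμ2 z
    have h3 : meromorphicOrderAt (fun z => G z j) z = 0 := by
      rw [hGord j z, hord z]
      obtain ⟨a, ha⟩ := WithTop.ne_top_iff_exists.1 (hTne' j hj z)
      rw [← ha] at hj' ⊢
      have h4 : a = μ z := hj'
      rw [h4]
      have e : (μ z : WithTop ℤ) - (μ z : WithTop ℤ) = ((μ z - μ z : ℤ) : WithTop ℤ) := rfl
      rw [e, sub_self]
      rfl
    rw [(hNF j (mem_univ z)).meromorphicOrderAt_eq_zero_iff] at h3
    exact h3 (congrFun h0 j)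
  have hfac : ∀ z, F z = h z • G z := by
    intro z
    have hev : ∀ᶠ w in 𝓝[≠] z, F w = h w • G w := by
      have h1 : ∀ᶠ w in 𝓝[≠] z, ∀ j, G w j = ((fun z => F z j) / h) w := by
        rw [eventually_all]
        exact fun j => (hq j).toMeromorphicNFOn_eq_self_on_nhdsNE (mem_univ z)
      have h2 : ∀ᶠ w in 𝓝[≠] z, h w ≠ 0 :=
        (meromorphicOrderAt_ne_top_iff_eventually_ne_zero (hhM z)).1 (by
          rw [hord z]; exact WithTop.coe_ne_top)
      filter_upwards [h1, h2] with w h1 h2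
      funext j
      rw [Pi.smul_apply, h1 j, Pi.div_apply, smul_eq_mul]
      field_simp
    have h2 : Tendsto F (𝓝[≠] z) (𝓝 (F z)) :=
      (hF.continuous.continuousAt).tendsto.mono_left nhdsWithin_le_nhds
    have h3 : Tendsto (fun w => h w • G w) (𝓝[≠] z) (𝓝 (h z • G z)) :=
      ((hhd.continuous.smul hGd'.continuous).continuousAt).tendsto.mono_left
        nhdsWithin_le_nhds
    exact tendsto_nhds_unique h2 (h3.congr' (hev.mono fun w hw => hw.symm))
  refine ⟨h, G, hhd, hGd', hG0, hfac, fun h0 => hz0 ?_⟩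
  rw [hfac z0, h0, zero_smul]

end Pool.Agent.K7.H11.LM
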