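import Pool.Agent.K7.H11.LM.Bro
import Pool.Agent.K7.H11.LM.Zf
import Pool.Agent.K7.H11.GG.Main

/-! Curves `y_l ^ d_l = u ^ d_l - (t_l v) ^ d_l` with `∑ (d_l - 1) ≥ 3` are hyperbolic. -/

set_option autoImplicit false

namespace Pool.Agent.K7.H11.LM

open Filter Topology Metric Set
open Pool.Agent.Y190.OP
open Pool.Agent.K7.H11.GG

/-- uniform lower bounds on a closed cone -/
theorem lower {N : ℕ} {K : Set (Fin N → ℂ)} (hK : IsClosed K)
    (hKs : ∀ x ∈ K, ∀ c : ℂ, c • x ∈ K) (a b : Fin N)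
    (h : ∀ x ∈ K, x a = 0 → x b = 0 → x = 0) :
    ∃ ε : ℝ, 0 < ε ∧ ∀ x ∈ K, ε * ‖x‖ ≤ max ‖x a‖ ‖x b‖ := by
  have hc : IsCompact (K ∩ sphere (0 : Fin N → ℂ) 1) := (isCompact_sphere _ _).inter_left hK
  have hcont : Continuous fun x : Fin N → ℂ => max ‖x a‖ ‖x b‖ :=
    (continuous_apply a).norm.max (continuous_apply b).norm
  have key : ∃ ε : ℝ, 0 < ε ∧ ∀ x ∈ K ∩ sphere (0 : Fin N → ℂ) 1, ε ≤ max ‖x a‖ ‖x b‖ := by
    rcases (K ∩ sphere (0 : Fin N → ℂ) 1).eq_empty_or_nonempty with he | hne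
    · exact ⟨1, one_pos, fun x hx => by rw [he] at hx; exact absurd hx (Set.notMem_empty x)⟩
    · obtain ⟨x0, hx0, hmin⟩ := hc.exists_isMinOn hne hcont.continuousOn
      refine ⟨max ‖x0 a‖ ‖x0 b‖, ?_, fun x hx => hmin hx⟩
      by_contra hcon
      push Not at hcon
      have h1 : ‖x0 a‖ ≤ 0 := (le_max_left _ _).trans hcon
      have h2 : ‖x0 b‖ ≤ 0 := (le_max_right _ _).trans hcon
      have h3 := h x0 hx0.1 (norm_le_zero_iff.1 h1) (norm_le_zero_iff.1 h2)
      have h4 := mem_sphere_zero_iff_norm.1 hx0.2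
      rw [h3, norm_zero] at h4
      exact zero_ne_one h4
  obtain ⟨ε, hε, hb⟩ := key
  refine ⟨ε, hε, fun x hx => ?_⟩
  by_cases hx0 : x = 0
  · subst hx0
    rw [norm_zero, mul_zero]
    exact le_max_of_le_left (norm_nonneg _)
  · have hn : 0 < ‖x‖ := norm_pos_iff.2 hx0
    have h1 := hb ((‖x‖ : ℂ)⁻¹ • x) ⟨hKs x hx _, by
      rw [mem_sphere_zero_iff_norm, norm_smul, norm_inv, Complex.norm_real, norm_norm]
      exact inv_mul_cancel₀ hn.ne'⟩
    rw [Pi.smul_apply, Pi.smul_apply, smul_eq_mul, smul_eq_mul, norm_mul, norm_mul, norm_inv,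
      Complex.norm_real, norm_norm, ← mul_max_of_nonneg _ _ (by positivity)] at h1
    rw [inv_mul_eq_div, le_div_iff₀ hn] at h1
    exact h1

theorem lower_all {N : ℕ} [NeZero N] {K : Set (Fin N → ℂ)} (hK : IsClosed K)
    (hKs : ∀ x ∈ K, ∀ c : ℂ, c • x ∈ K) :
    ∃ ε : ℝ, 0 < ε ∧ ∀ a b : Fin N, (∀ x ∈ K, x a = 0 → x b = 0 → x = 0) →
      ∀ x ∈ K, ε * ‖x‖ ≤ max ‖x a‖ ‖x b‖ := by
  have h1 : ∀ p : Fin N × Fin N, ∃ ε : ℝ, 0 < ε ∧
      ((∀ x ∈ K, x p.1 = 0 → x p.2 = 0 → x = 0) → ∀ x ∈ K, ε * ‖x‖ ≤ max ‖x p.1‖ ‖x p.2‖) := by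
    intro p
    by_cases h : ∀ x ∈ K, x p.1 = 0 → x p.2 = 0 → x = 0
    · obtain ⟨ε, hε, hb⟩ := lower hK hKs p.1 p.2 h
      exact ⟨ε, hε, fun _ => hb⟩
    · exact ⟨1, one_pos, fun h' => absurd h' h⟩
  choose e he hb using h1
  obtain ⟨p, hp⟩ := Finite.exists_min e
  refine ⟨e p, he p, fun a b h x hx => ?_⟩
  exact (mul_le_mul_of_nonneg_right (hp (a, b)) (norm_nonneg _)).trans (hb (a, b) h x hx)

variable {r : ℕ}

/-- the parameters `1, 2, …` -/
def tt (l : Fin r) : ℂ := ((l : ℕ) : ℂ) + 1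

lemma norm_tt (l : Fin r) : ‖tt l‖ = (l : ℕ) + 1 := by
  have : tt l = (((l : ℕ) + 1 : ℕ) : ℂ) := by
    unfold tt; push_cast; rfl
  rw [this, Complex.norm_natCast]
  push_cast; rfl

/-- the cone over the curve -/
def cone (d : Fin r → ℕ) (J : Finset (Fin r)) : Set (Fin (r + 2) → ℂ) :=
  {x | (∀ l ∈ J, x l.succ.succ ^ d l = x 0 ^ d l - (tt l * x 1) ^ d l) ∧
    ∀ l, l ∉ J → x l.succ.succ = 0}

variable {d : Fin r → ℕ} {J : Finset (Fin r)}

lemma cone_closed : IsClosed (cone d J) := by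
  have h1 : cone d J = (⋂ l : Fin r, {x | l ∈ J → x l.succ.succ ^ d l =
      x 0 ^ d l - (tt l * x 1) ^ d l}) ∩ ⋂ l : Fin r, {x | l ∉ J → x l.succ.succ = 0} := by
    ext x
    simp only [cone, Set.mem_ofPred_eq, mem_inter_iff, mem_iInter]
  rw [h1]
  refine IsClosed.inter (isClosed_iInter fun l => ?_) (isClosed_iInter fun l => ?_)
  · by_cases hl : l ∈ J
    · simp only [hl, forall_true_left]
      exact isClosed_eq (by fun_prop) (by fun_prop)
    · simp only [hl, IsEmpty.forall_iff]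
      exact isClosed_univ
  · by_cases hl : l ∈ J
    · simp only [hl, not_true_eq_false, IsEmpty.forall_iff]
      exact isClosed_univ
    · simp only [hl, not_false_eq_true, forall_true_left]
      exact isClosed_eq (continuous_apply _) continuous_const

lemma cone_smul : ∀ x ∈ cone d J, ∀ c : ℂ, c • x ∈ cone d J := by
  rintro x ⟨h1, h2⟩ c
  refine ⟨fun l hl => ?_, fun l hl => ?_⟩
  · simp only [Pi.smul_apply, smul_eq_mul]
    have := h1 l hl
    rw [mul_pow, this]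
    ring
  · simp only [Pi.smul_apply, smul_eq_mul]
    rw [h2 l hl, mul_zero]

lemma cone_zero (hd : ∀ l ∈ J, 1 ≤ d l) {x : Fin (r + 2) → ℂ} (hx : x ∈ cone d J)
    (h0 : x 0 = 0) (h1 : x 1 = 0) : x = 0 := by
  funext k
  refine Fin.cases h0 (fun k => Fin.cases h1 (fun l => ?_) k) k
  by_cases hl : l ∈ J
  · have := hx.1 l hl
    have hdl := hd l hl
    rw [h0, h1, mul_zero, zero_pow (by omega), sub_zero] at this
    exact pow_eq_zero_iff (by omega) |>.1 this
  · exact hx.2 l hl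

lemma cone_y1 (hd : ∀ l ∈ J, 1 ≤ d l) {l : Fin r} (hl : l ∈ J) : ∀ x ∈ cone d J,
    x l.succ.succ = 0 → x 1 = 0 → x = 0 := by
  intro x hx h0 h1
  have hdl := hd l hl
  have h2 := hx.1 l hl
  rw [h0, h1, mul_zero, zero_pow (by omega), sub_zero] at h2
  exact cone_zero hd hx (pow_eq_zero_iff (by omega) |>.1 h2.symm) h1

lemma cone_y2 (hd : ∀ l ∈ J, 1 ≤ d l) {l m : Fin r} (hl : l ∈ J) (hm : m ∈ J) (hlm : l ≠ m) :
    ∀ x ∈ cone d J, x l.succ.succ = 0 → x m.succ.succ = 0 → x = 0 := by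
  intro x hx h0 h1
  have key : ∀ k : Fin r, k ∈ J → x k.succ.succ = 0 → ‖x 0‖ = ((k : ℕ) + 1) * ‖x 1‖ := by
    intro k hk hk0
    have hdk := hd k hk
    have h2 := hx.1 k hk
    rw [hk0, zero_pow (by omega)] at h2
    have h3 : x 0 ^ d k = (tt k * x 1) ^ d k := (sub_eq_zero.1 h2.symm)
    have h4 : ‖x 0‖ ^ d k = ‖tt k * x 1‖ ^ d k := by rw [← norm_pow, h3, norm_pow]
    have h5 := (pow_left_inj₀ (norm_nonneg _) (norm_nonneg _) (by omega)).1 h4
    rw [h5, norm_mul, norm_tt]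
  have e1 := key l hl h0
  have e2 := key m hm h1
  have h3 : (((l : ℕ) : ℝ) - (m : ℕ)) * ‖x 1‖ = 0 := by rw [e1] at e2; linarith
  have h4 : (((l : ℕ) : ℝ) - (m : ℕ)) ≠ 0 := by
    intro h
    apply hlm
    apply Fin.ext
    exact_mod_cast sub_eq_zero.1 h
  have h5 : ‖x 1‖ = 0 := (mul_eq_zero.1 h3).resolve_left h4
  exact cone_y1 hd hl x hx h0 (norm_eq_zero.1 h5)

/-- the Wronskian relations -/
lemma wr_rel {u v y : ℂ → ℂ} (hu : Differentiable ℂ u) (hv : Differentiable ℂ v)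
    (hy : Differentiable ℂ y) {e : ℕ} (he : 1 ≤ e) {t : ℂ}
    (h : ∀ z, y z ^ e = u z ^ e - (t * v z) ^ e) (z : ℂ) :
    y z ^ (e - 1) * (u z * deriv y z - y z * deriv u z) =
      - (t ^ e * v z ^ (e - 1) * (u z * deriv v z - v z * deriv u z)) ∧
    y z ^ (e - 1) * (v z * deriv y z - y z * deriv v z) =
      - (u z ^ (e - 1) * (u z * deriv v z - v z * deriv u z)) := by
  obtain ⟨k, rfl⟩ : ∃ k, e = k + 1 := ⟨e - 1, by omega⟩
  have h1 : HasDerivAt (fun z => y z ^ (k + 1)) (((k + 1 : ℕ) : ℂ) * y z ^ k * deriv y z) z := by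
    have h0 := (hy z).hasDerivAt.fun_pow (k + 1)
    rwa [Nat.add_sub_cancel] at h0
  have h2 : HasDerivAt (fun z => u z ^ (k + 1) - (t * v z) ^ (k + 1))
      (((k + 1 : ℕ) : ℂ) * u z ^ k * deriv u z -
        ((k + 1 : ℕ) : ℂ) * (t * v z) ^ k * (t * deriv v z)) z := by
    have h3 := (hu z).hasDerivAt.fun_pow (k + 1)
    have h4 := ((hv z).hasDerivAt.const_mul t).fun_pow (k + 1)
    rw [Nat.add_sub_cancel] at h3 h4
    exact h3.fun_sub h4
  have h3 : (fun z => y z ^ (k + 1)) = fun z => u z ^ (k + 1) - (t * v z) ^ (k + 1) :=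
    funext h
  rw [h3] at h1
  have h4 := h1.unique h2
  have h5 : y z ^ k * deriv y z = u z ^ k * deriv u z - (t * v z) ^ k * (t * deriv v z) := by
    have hk : ((k + 1 : ℕ) : ℂ) ≠ 0 := by exact_mod_cast Nat.succ_ne_zero k
    apply mul_left_cancel₀ hk
    linear_combination h4
  have h6 := h z
  rw [mul_pow] at h5
  rw [mul_pow] at h6
  simp only [Nat.add_sub_cancel]
  constructor
  · linear_combination u z * h5 - deriv u z * h6
  · linear_combination v z * h5 - deriv v z * h6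

/-- the main estimate -/
theorem main_est (hd : ∀ l ∈ J, 1 ≤ d l) {G : ℂ → Fin (r + 2) → ℂ} (hG : Differentiable ℂ G)
    (hG0 : ∀ z, G z ≠ 0) (hGK : ∀ z, G z ∈ cone d J) {R : ℝ}
    (hR : ∀ z a b, ‖G z a * deriv G z b - G z b * deriv G z a‖ ≤ R * ‖G z‖ ^ 2) :
    ∃ ε : ℝ, 0 < ε ∧ ∀ z, ‖G z 0 * deriv G z 1 - G z 1 * deriv G z 0‖ *
      (ε * ‖G z‖) ^ (∑ l ∈ J, (d l - 1)) ≤
        R * ‖G z‖ ^ 2 * ∏ l ∈ J, ‖G z l.succ.succ‖ ^ (d l - 1) := by
  classical
  have hGd : ∀ k, Differentiable ℂ fun z => G z k := fun k => differentiable_pi.1 hG k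
  have hder : ∀ z k, deriv G z k = deriv (fun z => G z k) z := by
    intro z k
    have h1 : HasDerivAt G (fun k => deriv (fun z => G z k) z) z :=
      hasDerivAt_pi.2 fun k => ((hGd k) z).hasDerivAt
    rw [h1.deriv]
  obtain ⟨ε, hε, hlow⟩ := lower_all (cone_closed (d := d) (J := J)) cone_smul
  refine ⟨ε, hε, fun z => ?_⟩
  have hM : 0 < ‖G z‖ := norm_pos_iff.2 (hG0 z)
  have hR0 : 0 ≤ R * ‖G z‖ ^ 2 := (norm_nonneg _).trans (hR z 0 1)
  by_cases hA : ∀ l ∈ J, ε * ‖G z‖ ≤ ‖G z l.succ.succ‖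
  · have h1 : (ε * ‖G z‖) ^ (∑ l ∈ J, (d l - 1)) ≤ ∏ l ∈ J, ‖G z l.succ.succ‖ ^ (d l - 1) := by
      rw [← Finset.prod_pow_eq_pow_sum]
      exact Finset.prod_le_prod (fun l _ => by positivity) fun l hl =>
        pow_le_pow_left₀ (by positivity) (hA l hl) _
    exact mul_le_mul (hR z 0 1) h1 (by positivity) hR0
  · push Not at hA
    obtain ⟨m, hm, hsmall⟩ := hA
    have hdm := hd m hm
    have h1 : ∀ l ∈ J.erase m, ε * ‖G z‖ ≤ ‖G z l.succ.succ‖ := by
      intro l hl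
      obtain ⟨hlm, hlJ⟩ := Finset.mem_erase.1 hl
      have h2 := hlow l.succ.succ m.succ.succ (cone_y2 hd hlJ hm hlm) (G z) (hGK z)
      rcases le_max_iff.1 h2 with h3 | h3
      · exact h3
      · exact absurd h3 (not_le.2 hsmall)
    have h2 : ε * ‖G z‖ ≤ ‖G z 1‖ := by
      have h2 := hlow m.succ.succ 1 (cone_y1 hd hm) (G z) (hGK z)
      rcases le_max_iff.1 h2 with h3 | h3
      · exact absurd h3 (not_le.2 hsmall)
      · exact h3
    have h3 := (wr_rel (hGd 0) (hGd 1) (hGd m.succ.succ) hdm (t := tt m)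
      (fun z => (hGK z).1 m hm) z).1
    rw [← hder, ← hder, ← hder] at h3
    have h4 : ‖G z 0 * deriv G z 1 - G z 1 * deriv G z 0‖ * ‖G z 1‖ ^ (d m - 1) ≤
        ‖G z m.succ.succ‖ ^ (d m - 1) * (R * ‖G z‖ ^ 2) := by
      have h5 := congrArg norm h3
      rw [norm_neg, norm_mul, norm_mul, norm_mul, norm_pow, norm_pow, norm_pow, norm_tt] at h5
      have h6 : ‖G z m.succ.succ‖ ^ (d m - 1) *
          ‖G z 0 * deriv G z m.succ.succ - G z m.succ.succ * deriv G z 0‖ ≤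
          ‖G z m.succ.succ‖ ^ (d m - 1) * (R * ‖G z‖ ^ 2) :=
        mul_le_mul_of_nonneg_left (hR z 0 m.succ.succ) (by positivity)
      rw [h5] at h6
      refine le_trans ?_ h6
      have h7 : (1 : ℝ) ≤ (((m : ℕ) : ℝ) + 1) ^ d m := by
        apply one_le_pow₀
        have : (0 : ℝ) ≤ ((m : ℕ) : ℝ) := Nat.cast_nonneg _
        linarith
      calc ‖G z 0 * deriv G z 1 - G z 1 * deriv G z 0‖ * ‖G z 1‖ ^ (d m - 1)
          = 1 * ‖G z 1‖ ^ (d m - 1) * ‖G z 0 * deriv G z 1 - G z 1 * deriv G z 0‖ := by ring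
        _ ≤ (((m : ℕ) : ℝ) + 1) ^ d m * ‖G z 1‖ ^ (d m - 1) *
            ‖G z 0 * deriv G z 1 - G z 1 * deriv G z 0‖ := by gcongr
    have h5 : (ε * ‖G z‖) ^ (∑ l ∈ J.erase m, (d l - 1)) ≤
        ∏ l ∈ J.erase m, ‖G z l.succ.succ‖ ^ (d l - 1) := by
      rw [← Finset.prod_pow_eq_pow_sum]
      exact Finset.prod_le_prod (fun l _ => by positivity) fun l hl =>
        pow_le_pow_left₀ (by positivity) (h1 l hl) _
    have h6 : ‖G z 0 * deriv G z 1 - G z 1 * deriv G z 0‖ * (ε * ‖G z‖) ^ (d m - 1) ≤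
        ‖G z m.succ.succ‖ ^ (d m - 1) * (R * ‖G z‖ ^ 2) := by
      refine le_trans ?_ h4
      gcongr
    rw [← Finset.add_sum_erase J _ hm, ← Finset.mul_prod_erase J _ hm, pow_add]
    calc ‖G z 0 * deriv G z 1 - G z 1 * deriv G z 0‖ * ((ε * ‖G z‖) ^ (d m - 1) *
          (ε * ‖G z‖) ^ (∑ l ∈ J.erase m, (d l - 1)))
        = (‖G z 0 * deriv G z 1 - G z 1 * deriv G z 0‖ * (ε * ‖G z‖) ^ (d m - 1)) *
          (ε * ‖G z‖) ^ (∑ l ∈ J.erase m, (d l - 1)) := by ring
      _ ≤ (‖G z m.succ.succ‖ ^ (d m - 1) * (R * ‖G z‖ ^ 2)) *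
          ∏ l ∈ J.erase m, ‖G z l.succ.succ‖ ^ (d l - 1) :=
          mul_le_mul h6 h5 (by positivity) (by positivity)
      _ = R * ‖G z‖ ^ 2 * (‖G z m.succ.succ‖ ^ (d m - 1) *
          ∏ l ∈ J.erase m, ‖G z l.succ.succ‖ ^ (d l - 1)) := by ring

/-- a curve in the cone is constant if its first two coordinates are proportional -/
lemma const_of_prop (hd : ∀ l ∈ J, 1 ≤ d l) {G : ℂ → Fin (r + 2) → ℂ} (hG : Differentiable ℂ G)
    (hG0 : ∀ z, G z ≠ 0) (hGK : ∀ z, G z ∈ cone d J) {c : ℂ}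
    (h : (∀ z, G z 0 = c * G z 1) ∨ ∀ z, G z 1 = c * G z 0) :
    ∀ z, Phi (G z) = Phi (G 0) := by
  have hGd : ∀ k, Differentiable ℂ fun z => G z k := fun k => differentiable_pi.1 hG k
  obtain ⟨g, a, b, hg, hg0, h0, h1⟩ : ∃ (g : ℂ → ℂ) (a b : ℂ), Differentiable ℂ g ∧
      (∀ z, g z ≠ 0) ∧ (∀ z, G z 0 = a * g z) ∧ ∀ z, G z 1 = b * g z := by
    rcases h with h | h
    · refine ⟨fun z => G z 1, c, 1, hGd 1, fun z hz => hG0 z (cone_zero hd (hGK z) ?_ hz), h,
        fun z => (one_mul _).symm⟩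
      rw [h z, show G z 1 = 0 from hz, mul_zero]
    · refine ⟨fun z => G z 0, 1, c, hGd 0, fun z hz => hG0 z (cone_zero hd (hGK z) hz ?_),
        fun z => (one_mul _).symm, h⟩
      rw [h z, show G z 0 = 0 from hz, mul_zero]
  have h2 : ∀ k : Fin (r + 2), ∃ e : ℂ, ∀ z, G z k = e * g z := by
    intro k
    refine Fin.cases ⟨a, h0⟩ (fun k => Fin.cases ⟨b, h1⟩ (fun l => ?_) k) k
    by_cases hl : l ∈ J
    · have hdl := hd l hl
      refine const_of_pow (hGd _) hg (e := d l) (by omega) hg0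
        (c := a ^ d l - (tt l * b) ^ d l) fun z => ?_
      rw [(hGK z).1 l hl, h0, h1]
      ring
    · exact ⟨0, fun z => by rw [zero_mul]; exact (hGK z).2 l hl⟩
  choose e he using h2
  intro z
  have h3 : G z = (g z / g 0) • G 0 := by
    funext k
    rw [Pi.smul_apply, smul_eq_mul, he k z, he k 0]
    have := hg0 0
    field_simp
  rw [h3, Phi_smul (div_ne_zero (hg0 z) (hg0 0))]

/-- **Hyperbolicity of the curves**, for curves without common zeros. -/
theorem block0 (hd : ∀ l ∈ J, 1 ≤ d l) (hw : 3 ≤ ∑ l ∈ J, (d l - 1)) {g : ℂ → Fin (r + 2) → ℂ}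
    (hg : Differentiable ℂ g) (hg0 : ∀ z, g z ≠ 0) (hgK : ∀ z, g z ∈ cone d J) :
    ∀ z, Phi (g z) = Phi (g 0) := by
  classical
  by_contra hne
  obtain ⟨G, R, hG, hG0, hGK, hGne, hR⟩ := brody_cone cone_closed cone_smul hg hg0 hgK hne
  apply hGne
  have hGd : ∀ k, Differentiable ℂ fun z => G z k := fun k => differentiable_pi.1 hG k
  have hder : ∀ z k, deriv G z k = deriv (fun z => G z k) z := by
    intro z k
    have h1 : HasDerivAt G (fun k => deriv (fun z => G z k) z) z :=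
      hasDerivAt_pi.2 fun k => ((hGd k) z).hasDerivAt
    rw [h1.deriv]
  have hdd : ∀ k, Differentiable ℂ fun z => deriv G z k := by
    intro k
    have h1 : (fun z => deriv G z k) = deriv (fun z => G z k) := funext fun z => hder z k
    rw [h1]
    exact (hGd k).deriv
  obtain ⟨ε, hε, hest⟩ := main_est hd hG hG0 hGK hR
  set D := ∑ l ∈ J, (d l - 1) with hD
  obtain ⟨e, he⟩ : ∃ e, D = e + 2 := ⟨D - 2, by omega⟩
  have he1 : e ≠ 0 := by omega
  set W : ℂ → ℂ := fun z => G z 0 * deriv G z 1 - G z 1 * deriv G z 0 with hW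
  set Q : ℂ → ℂ := fun z => ∏ l ∈ J, G z l.succ.succ ^ (d l - 1) with hQ
  have hWd : Differentiable ℂ W := ((hGd 0).mul (hdd 1)).sub ((hGd 1).mul (hdd 0))
  have hQd : Differentiable ℂ Q := by
    have h1 : Q = fun z => ∏ l ∈ J, (fun l z => G z l.succ.succ ^ (d l - 1)) l z := rfl
    rw [h1]
    exact Differentiable.fun_finsetProd fun l _ => (hGd l.succ.succ).pow _
  have hQn : ∀ z, ‖Q z‖ = ∏ l ∈ J, ‖G z l.succ.succ‖ ^ (d l - 1) := by
    intro z
    rw [hQ]
    simp only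
    rw [norm_prod]
    exact Finset.prod_congr rfl fun l _ => norm_pow _ _
  have hbound : ∀ (a : Fin (r + 2)) (z : ℂ), ‖W z * G z a ^ e‖ ≤ R / ε ^ D * ‖Q z‖ := by
    intro a z
    have hM : 0 < ‖G z‖ := norm_pos_iff.2 (hG0 z)
    have h1 := hest z
    rw [← hQn] at h1
    have h2 : ‖W z‖ * ‖G z‖ ^ e * (ε ^ D * ‖G z‖ ^ 2) ≤ R * ‖Q z‖ * ‖G z‖ ^ 2 := by
      calc ‖W z‖ * ‖G z‖ ^ e * (ε ^ D * ‖G z‖ ^ 2)
          = ‖W z‖ * (ε * ‖G z‖) ^ D := by rw [mul_pow, he]; ring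
        _ ≤ R * ‖G z‖ ^ 2 * ‖Q z‖ := h1
        _ = R * ‖Q z‖ * ‖G z‖ ^ 2 := by ring
    have h3 : ‖W z‖ * ‖G z‖ ^ e * ε ^ D ≤ R * ‖Q z‖ := by
      have h4 : 0 < ‖G z‖ ^ 2 := by positivity
      refine le_of_mul_le_mul_right ?_ h4
      calc ‖W z‖ * ‖G z‖ ^ e * ε ^ D * ‖G z‖ ^ 2
          = ‖W z‖ * ‖G z‖ ^ e * (ε ^ D * ‖G z‖ ^ 2) := by ring
        _ ≤ _ := h2
    calc ‖W z * G z a ^ e‖ = ‖W z‖ * ‖G z a‖ ^ e := by rw [norm_mul, norm_pow]
      _ ≤ ‖W z‖ * ‖G z‖ ^ e := by gcongr; exact norm_le_pi_norm _ _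
      _ ≤ R / ε ^ D * ‖Q z‖ := by
          rw [div_mul_eq_mul_div, le_div_iff₀ (by positivity)]
          exact h3
  obtain ⟨c0, hc0⟩ := liou (hWd.mul ((hGd 0).pow e)) hQd (hbound 0)
  obtain ⟨c1, hc1⟩ := liou (hWd.mul ((hGd 1).pow e)) hQd (hbound 1)
  have h01 : ∀ z, ¬ (G z 0 = 0 ∧ G z 1 = 0) := fun z h => hG0 z (cone_zero hd (hGK z) h.1 h.2)
  by_cases hWz : ∀ z, W z = 0
  · -- the vector of the first two coordinates
    set H : ℂ → Fin 2 → ℂ := fun z => ![G z 0, G z 1] with hH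
    have hHd : Differentiable ℂ H := by
      rw [differentiable_pi]
      intro k
      fin_cases k
      · exact hGd 0
      · exact hGd 1
    have hH0 : ∀ z, H z ≠ 0 := fun z h => h01 z ⟨congrFun h 0, congrFun h 1⟩
    have hHder : ∀ z, deriv H z = ![deriv G z 0, deriv G z 1] := by
      intro z
      have h1 : HasDerivAt H ![deriv G z 0, deriv G z 1] z := by
        rw [hasDerivAt_pi]
        intro k
        fin_cases k
        · have := (hGd 0 z).hasDerivAt
          rw [← hder] at this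
          exact this
        · have := (hGd 1 z).hasDerivAt
          rw [← hder] at this
          exact this
      exact h1.deriv
    have hPhi := wron hHd hH0 (by
      intro z j k
      have := hWz z
      rw [hHder z]
      fin_cases j <;> fin_cases k
      · exact mul_comm _ _
      · change deriv G z 0 * G z 1 = G z 0 * deriv G z 1
        linear_combination -this
      · change deriv G z 1 * G z 0 = G z 1 * deriv G z 0
        linear_combination this
      · exact mul_comm _ _)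
    have hprop : ∀ z, ∃ c : ℂ, H z = c • H 0 := fun z => by
      obtain ⟨c, -, hc⟩ := Phi_inj (hH0 0) (hH0 z) (hPhi z).symm
      exact ⟨c, hc⟩
    choose c hc using hprop
    have ha : ∀ z, G z 0 = c z * G 0 0 := fun z => congrFun (hc z) 0
    have hb : ∀ z, G z 1 = c z * G 0 1 := fun z => congrFun (hc z) 1
    by_cases hv : G 0 1 = 0
    · refine const_of_prop hd hG hG0 hGK (c := 0) (Or.inr fun z => ?_)
      rw [hb z, hv, mul_zero, zero_mul]
    · refine const_of_prop hd hG hG0 hGK (c := G 0 0 / G 0 1) (Or.inl fun z => ?_)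
      rw [ha z, hb z]
      field_simp
  · push Not at hWz
    obtain ⟨z1, hz1⟩ := hWz
    have h5 : ∀ z, c1 * G z 0 ^ e - c0 * G z 1 ^ e = 0 := by
      apply entire_mul_zero hWd ((((hGd 0).pow e).const_mul c1).sub (((hGd 1).pow e).const_mul c0))
        _ hz1
      intro z
      have e0 : W z * G z 0 ^ e = c0 * Q z := hc0 z
      have e1 : W z * G z 1 ^ e = c1 * Q z := hc1 z
      change W z * (c1 * G z 0 ^ e - c0 * G z 1 ^ e) = 0
      linear_combination c1 * e0 - c0 * e1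
    by_cases h1 : c1 = 0
    · by_cases h0 : c0 = 0
      · exfalso
        have e0 : W z1 * G z1 0 ^ e = c0 * Q z1 := hc0 z1
        have e1 : W z1 * G z1 1 ^ e = c1 * Q z1 := hc1 z1
        rw [h0, zero_mul] at e0
        rw [h1, zero_mul] at e1
        exact h01 z1 ⟨pow_eq_zero_iff he1 |>.1 ((mul_eq_zero.1 e0).resolve_left hz1),
          pow_eq_zero_iff he1 |>.1 ((mul_eq_zero.1 e1).resolve_left hz1)⟩
      · refine const_of_prop hd hG hG0 hGK (c := 0) (Or.inr fun z => ?_)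
        have := h5 z
        rw [h1, zero_mul, zero_sub, neg_eq_zero] at this
        rw [zero_mul]
        exact pow_eq_zero_iff he1 |>.1 ((mul_eq_zero.1 this).resolve_left h0)
    · have h6 : ∀ z, G z 0 ^ e = c0 / c1 * G z 1 ^ e := by
        intro z
        have := h5 z
        field_simp
        linear_combination this
      have h7 : ∀ z, G z 1 ≠ 0 := by
        intro z hz
        have := h6 z
        rw [hz, zero_pow he1, mul_zero] at this
        exact h01 z ⟨pow_eq_zero_iff he1 |>.1 this, hz⟩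
      obtain ⟨c, hc⟩ := const_of_pow (hGd 0) (hGd 1) he1 h7 h6
      exact const_of_prop hd hG hG0 hGK (c := c) (Or.inl hc)

/-- **Hyperbolicity of the curves** `y_l ^ d_l = u ^ d_l - (t_l v) ^ d_l`. -/
theorem block (hd : ∀ l ∈ J, 1 ≤ d l) (hw : 3 ≤ ∑ l ∈ J, (d l - 1)) {u v : ℂ → ℂ}
    {y : Fin r → ℂ → ℂ} (hu : Differentiable ℂ u) (hv : Differentiable ℂ v)
    (hy : ∀ l, Differentiable ℂ (y l))
    (h : ∀ l ∈ J, ∀ z, y l z ^ d l = u z ^ d l - (tt l * v z) ^ d l) (z w : ℂ) :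
    u z * v w = u w * v z := by
  classical
  set F : ℂ → Fin (r + 2) → ℂ := fun z => Fin.cons (u z) (Fin.cons (v z)
    (fun l => if l ∈ J then y l z else 0)) with hF
  have hFd : Differentiable ℂ F := by
    rw [differentiable_pi]
    intro k
    refine Fin.cases hu (fun k => Fin.cases hv (fun l => ?_) k) k
    by_cases hl : l ∈ J
    · have : (fun z => F z l.succ.succ) = y l := by
        funext z
        change (if l ∈ J then y l z else 0) = y l z
        rw [if_pos hl]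
      rw [this]
      exact hy l
    · have : (fun z => F z l.succ.succ) = fun _ => 0 := by
        funext z
        change (if l ∈ J then y l z else 0) = 0
        rw [if_neg hl]
      rw [this]
      exact differentiable_const _
  have hF0 : ∀ z, F z 0 = u z := fun z => rfl
  have hF1 : ∀ z, F z 1 = v z := fun z => rfl
  have hFy : ∀ z l, l ∈ J → F z l.succ.succ = y l z := fun z l hl => if_pos hl
  have hFn : ∀ z l, l ∉ J → F z l.succ.succ = 0 := fun z l hl => if_neg hl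
  by_cases hz : ∃ z0, F z0 ≠ 0
  · obtain ⟨z0, hz0⟩ := hz
    obtain ⟨q, G, hq, hG, hG0, hfac, hq0⟩ := factor hFd hz0
    have hGd : ∀ k, Differentiable ℂ fun z => G z k := fun k => differentiable_pi.1 hG k
    have hfk : ∀ z k, F z k = q z * G z k := fun z k => congrFun (hfac z) k
    have hGK : ∀ z, G z ∈ cone d J := by
      intro z
      refine ⟨fun l hl => ?_, fun l hl => ?_⟩
      · have h1 : ∀ z, G z l.succ.succ ^ d l - (G z 0 ^ d l - (tt l * G z 1) ^ d l) = 0 := by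
          apply entire_mul_zero (hq.pow (d l)) (((hGd _).pow _).sub (((hGd _).pow _).sub
            (((hGd _).const_mul _).pow _))) _ (z0 := z0) (pow_ne_zero _ hq0)
          intro z
          have h2 := h l hl z
          rw [← hFy z l hl, ← hF0, ← hF1, hfk, hfk, hfk] at h2
          change q z ^ d l * (G z l.succ.succ ^ d l - (G z 0 ^ d l - (tt l * G z 1) ^ d l)) = 0
          simp only [mul_pow] at h2 ⊢
          linear_combination h2
        exact sub_eq_zero.1 (h1 z)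
      · have h1 : ∀ z, G z l.succ.succ = 0 := by
          apply entire_mul_zero hq (hGd _) _ (z0 := z0) hq0
          intro z
          rw [← hfk, hFn z l hl]
        exact h1 z
    have hP := block0 hd hw hG hG0 hGK
    have hprop : ∀ z, ∃ c : ℂ, G z = c • G 0 := fun z => by
      obtain ⟨c, -, hc⟩ := Phi_inj (hG0 0) (hG0 z) (hP z).symm
      exact ⟨c, hc⟩
    choose c hc using hprop
    have ha : ∀ z k, F z k = q z * (c z * G 0 k) := fun z k => by
      rw [hfk, hc z]; rfl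
    rw [← hF0, ← hF1, ← hF0, ← hF1, ha, ha, ha, ha]
    ring
  · push Not at hz
    have e1 : u z = 0 := congrFun (hz z) 0
    have e2 : u w = 0 := congrFun (hz w) 0
    rw [e1, e2, zero_mul, zero_mul]

end Pool.Agent.K7.H11.LM
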