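import Pool.Agent.K7.H11.GG.Bro

/-! Brody's lemma for entire curves in a closed cone. -/

set_option autoImplicit false

namespace Pool.Agent.K7.H11.LM

open Filter Topology Metric Set
open Pool.Agent.Y190.OP
open Pool.Agent.K7.H11.GG

variable {N : ℕ}

/-- **Brody's lemma for curves in a closed cone.** -/
theorem brody_cone0 {K : Set (Fin N → ℂ)} (hK : IsClosed K) (hKs : ∀ x ∈ K, ∀ c : ℂ, c • x ∈ K)
    {g : ℂ → Fin N → ℂ}
    (hg : Differentiable ℂ g) (hg0 : ∀ z, g z ≠ 0) (hgK : ∀ z, g z ∈ K)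
    (hne : ¬ ∀ z, Phi (g z) = Phi (g 0)) :
    ∃ (G : ℂ → Fin N → ℂ) (R : ℝ), Differentiable ℂ G ∧ (∀ z, G z ≠ 0) ∧ (∀ z, G z ∈ K) ∧
      (¬ ∀ z, Phi (G z) = Phi (G 0)) ∧ ∀ z, ∃ (j : Fin N) (v w : Fin N → ℂ) (t : ℂ),
        ‖v‖ = 1 ∧ v j = 1 ∧ ‖w‖ ≤ R ∧
        G z j ≠ 0 ∧ G z = G z j • v ∧ deriv G z = G z j • w + t • v := by
  have hNpos : 0 < N := by
    rcases Nat.eq_zero_or_pos N with h | h
    · subst h
      exact absurd (Subsingleton.elim _ _) (hg0 0)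
    · exact h
  have hN' : (1 : ℝ) ≤ N := by exact_mod_cast hNpos
  set Ψ : ℂ → Mat N := fun z => Phi (g z) with hΨ
  have hΨH : HolP univ Ψ := fun z _ => ⟨univ, g, isOpen_univ, mem_univ z, hg.differentiableOn,
    fun w _ => ⟨hg0 w, rfl⟩⟩
  have h1 : ∀ n : ℕ, ∃ (b : ℂ) (ρ : ℝ), 0 < ρ ∧
      (∀ z ∈ ball (0 : ℂ) ((n + 1 : ℝ) / 2), ‖fderiv ℝ (fun z => Ψ (aff b ρ z)) z‖ ≤ 2) ∧
      ‖fderiv ℝ (fun z => Ψ (aff b ρ z)) 0‖ = 1 := fun n => rescale' hΨH hne (by positivity)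
  choose b ρ hρ hd hd0 using h1
  obtain ⟨h, hh⟩ : ∃ h : ℕ → ℂ → Mat N, h = fun n z => Ψ (aff (b n) (ρ n) z) := ⟨_, rfl⟩
  obtain ⟨gn, hgn⟩ : ∃ gn : ℕ → ℂ → Fin N → ℂ, gn = fun n z => g (aff (b n) (ρ n) z) := ⟨_, rfl⟩
  have hhg : ∀ n z, h n z = Phi (gn n z) := fun n z => by rw [hh, hgn]
  have hgn0 : ∀ n z, gn n z ≠ 0 := fun n z => by rw [hgn]; exact hg0 _
  have hgnd : ∀ n, Differentiable ℂ (gn n) := fun n => by
    rw [hgn]; exact hg.comp (aff_diff _ _)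
  have hgnK : ∀ n z, gn n z ∈ K := fun n z => by rw [hgn]; exact hgK _
  have hH : ∀ n, HolP univ (h n) := fun n => by
    rw [hh]; exact (hΨH.aff (b n) (ρ n))
  have hHd : ∀ n : ℕ, ∀ z ∈ ball (0 : ℂ) ((n + 1 : ℝ) / 2), ‖fderiv ℝ (h n) z‖ ≤ 2 := fun n => by
    rw [hh]; exact hd n
  have hH0 : ∀ n, ‖fderiv ℝ (h n) 0‖ = 1 := fun n => by rw [hh]; exact hd0 n
  set 𝓤 : Ultrafilter ℕ := hyperfilter ℕ with h𝓤
  have hcof : ∀ R : ℝ, ∀ᶠ n : ℕ in (𝓤 : Filter ℕ), R ≤ n := by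
    intro R
    have h2 : ∀ᶠ n : ℕ in atTop, R ≤ n := by
      filter_upwards [eventually_ge_atTop ⌈R⌉₊] with n hn
      exact (Nat.le_ceil R).trans (by exact_mod_cast hn)
    have h3 : (𝓤 : Filter ℕ) ≤ atTop := by
      rw [← Nat.cofinite_eq_atTop]
      exact hyperfilter_le_cofinite
    exact h3 h2
  have hlim : ∀ z : ℂ, ∃ y ∈ {M : Mat N | ∃ u ∈ K, u ≠ 0 ∧ M = Phi u},
      Tendsto (fun n => h n z) 𝓤 (𝓝 y) := by
    intro z
    set u : ℕ → Fin N → ℂ := fun n => (‖gn n z‖ : ℂ)⁻¹ • gn n z with hu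
    have hun : ∀ n, u n ∈ sphere (0 : Fin N → ℂ) 1 := by
      intro n
      rw [mem_sphere_zero_iff_norm, hu]
      simp only
      rw [norm_smul, norm_inv, Complex.norm_real, norm_norm]
      exact inv_mul_cancel₀ (norm_pos_iff.2 (hgn0 n z)).ne'
    have hun' : ∀ᶠ n in (𝓤 : Filter ℕ), u n ∈ sphere (0 : Fin N → ℂ) 1 :=
      Eventually.of_forall hun
    obtain ⟨v, hv, hvt⟩ := (isCompact_sphere (0 : Fin N → ℂ) 1).ultrafilter_le_nhds
      (𝓤.map u) (by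
        rw [le_principal_iff]
        exact hun')
    have hvt' : Tendsto u 𝓤 (𝓝 v) := hvt
    have hv0 : v ≠ 0 := by
      rintro rfl
      rw [mem_sphere_zero_iff_norm, norm_zero] at hv
      exact zero_ne_one hv
    have huK : ∀ n, u n ∈ K := fun n => hKs _ (hgnK n z) _
    have hvK : v ∈ K := hK.mem_of_tendsto hvt' (Eventually.of_forall huK)
    refine ⟨Phi v, ⟨v, hvK, hv0, rfl⟩, ?_⟩
    refine (((continuousAt_Phi hv0).tendsto).comp hvt').congr fun n => ?_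
    have hn : (‖gn n z‖ : ℂ)⁻¹ ≠ 0 := by
      apply inv_ne_zero
      exact_mod_cast (norm_pos_iff.2 (hgn0 n z)).ne'
    rw [Function.comp_apply, hu]
    simp only
    rw [Phi_smul hn, hhg]
  choose H hHmem0 hHt using hlim
  have hHmem : ∀ z, H z ∈ (PM : Set (Mat N)) := fun z => by
    obtain ⟨u, -, hu0, hu⟩ := hHmem0 z
    exact ⟨u, hu0, hu⟩
  have hCC : ∀ R : ℝ, 0 < R → CConv (𝓤 : Filter ℕ) (ball 0 R) h H := by
    intro R hR z hz
    rw [Metric.tendsto_nhds]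
    intro ε hε
    have h2 := Metric.tendsto_nhds.1 (hHt z) (ε / 2) (by positivity)
    have h3 := hcof (2 * R)
    rw [eventually_prod_iff]
    refine ⟨_, h2.and h3, fun w => w ∈ ball (0 : ℂ) R ∧ dist w z < ε / 4, ?_, ?_⟩
    · have h4 : ∀ᶠ w in 𝓝 z, w ∈ ball (0 : ℂ) R := isOpen_ball.mem_nhds hz
      have h5 : ∀ᶠ w in 𝓝 z, dist w z < ε / 4 := ball_mem_nhds z (by positivity)
      exact h4.and h5
    · rintro n ⟨hn1, hn2⟩ w ⟨hw1, hw2⟩
      have h6 : ‖h n w - h n z‖ ≤ 2 * ‖w - z‖ := by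
        have hsub : ball (0 : ℂ) R ⊆ ball (0 : ℂ) ((n + 1 : ℝ) / 2) :=
          ball_subset_ball (by linarith)
        exact (convex_ball (0 : ℂ) R).norm_image_sub_le_of_norm_fderiv_le
          (fun x _ => (hH n).differentiableAt (mem_univ x))
          (fun x hx => hHd n x (hsub hx)) hz hw1
      calc dist (h n w) (H z) ≤ dist (h n w) (h n z) + dist (h n z) (H z) := dist_triangle _ _ _
        _ < ε / 2 + ε / 2 := by
            refine add_lt_add ?_ hn1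
            rw [dist_eq_norm]
            rw [dist_eq_norm] at hw2
            linarith
        _ = ε := by ring
  have hl := fun (R : ℝ) (hR : 0 < R) => holP_limit isOpen_ball (hCC R hR)
    (Eventually.of_forall fun n => (hH n).mono (subset_univ _)) (fun z _ => hHmem z)
  have hHol : HolP univ H := by
    intro z _
    exact (hl (‖z‖ + 1) (by positivity)).1 z (mem_ball_zero_iff.2 (by linarith))
  have hfd : ∀ z, Tendsto (fun n => fderiv ℝ (h n) z) 𝓤 (𝓝 (fderiv ℝ H z)) := fun z =>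
    (hl (‖z‖ + 1) (by positivity)).2 z (mem_ball_zero_iff.2 (by linarith))
  have hHn : ∀ z, ‖fderiv ℝ H z‖ ≤ 2 := by
    intro z
    refine le_of_tendsto (hfd z).norm ?_
    filter_upwards [hcof (2 * ‖z‖ + 2)] with n hn
    exact hHd n z (mem_ball_zero_iff.2 (by linarith))
  have hHne : ¬ ∀ z, H z = H 0 := by
    intro hc
    have hc1 : fderiv ℝ H 0 = 0 := by
      have : H = fun _ => H 0 := funext fun z => hc z
      rw [this]; simp
    have ht := hfd 0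
    rw [hc1] at ht
    have e1 := (ht.norm).eventually_lt_const (u := 1) (by simp)
    obtain ⟨n, hn⟩ := e1.exists
    rw [hH0 n] at hn
    exact lt_irrefl _ hn
  obtain ⟨G, hG, hG0, hGH⟩ := zero_free hHol
  set R : ℝ := 4 * (N : ℝ) ^ 2 with hR
  refine ⟨G, R, hG, hG0, fun z => ?_, fun hc => hHne fun z => by rw [hGH z, hGH 0, hc z],
    fun z => ?_⟩
  · obtain ⟨u, huK, hu0, hu⟩ := hHmem0 z
    rw [hGH z] at hu
    obtain ⟨c, hc, hcu⟩ := Phi_inj hu0 (hG0 z) hu.symm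
    rw [hcu]
    exact hKs u huK c
  -- the largest coordinate
  have : Nonempty (Fin N) := ⟨⟨0, hNpos⟩⟩
  obtain ⟨j, hj⟩ := Finite.exists_max fun j => ‖G z j‖
  have hGj : G z j ≠ 0 := by
    intro h0
    apply hG0 z
    funext k
    have := hj k
    rw [h0, norm_zero] at this
    exact norm_le_zero_iff.1 this
  have hHj : H z j j ≠ 0 := by
    rw [hGH z]; exact (Phi_diag_ne (hG0 z)).2 hGj
  have hdiag : ∀ k, ‖H z k k‖ ≤ ‖H z j j‖ := by
    intro k
    rw [hGH z]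
    unfold Phi
    rw [norm_div, norm_div, norm_mul, norm_mul, Complex.norm_conj, Complex.norm_conj]
    have := hj k
    gcongr
  have hHj1 : 1 / (N : ℝ) ≤ ‖H z j j‖ := by
    have h2 := sum_diag (hHmem z)
    have h3 : (1 : ℝ) ≤ ∑ k : Fin N, ‖H z k k‖ := by
      calc (1 : ℝ) = ‖∑ k, H z k k‖ := by rw [h2, norm_one]
        _ ≤ _ := norm_sum_le _ _
    have h4 : ∑ k : Fin N, ‖H z k k‖ ≤ N * ‖H z j j‖ := by
      calc ∑ k : Fin N, ‖H z k k‖ ≤ ∑ _k : Fin N, ‖H z j j‖ :=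
            Finset.sum_le_sum fun k _ => hdiag k
        _ = N * ‖H z j j‖ := by simp
    rw [div_le_iff₀ (by linarith)]
    linarith
  have hv : chart j (H z) = (G z j)⁻¹ • G z := by
    rw [hGH z]; exact chart_Phi (hG0 z) hGj
  refine ⟨j, chart j (H z), dv j (H z) (fderiv ℝ H z 1), deriv (fun z => G z j) z, ?_, ?_, ?_,
    hGj, ?_, ?_⟩
  · apply le_antisymm
    · rw [pi_norm_le_iff_of_nonneg zero_le_one]
      intro k
      rw [hv, Pi.smul_apply, smul_eq_mul, norm_mul, norm_inv]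
      rw [inv_mul_le_iff₀ (norm_pos_iff.2 hGj), mul_one]
      exact hj k
    · have : ‖chart j (H z) j‖ = 1 := by rw [PM.chart_self hHj, norm_one]
      rw [← this]
      exact norm_le_pi_norm _ j
  · exact PM.chart_self hHj
  · rw [pi_norm_le_iff_of_nonneg (by
      rw [hR]; positivity)]
    intro k
    unfold dv
    rw [norm_div, norm_pow]
    have e1 : ‖fderiv ℝ H z 1 k j * H z j j - H z k j * fderiv ℝ H z 1 j j‖ ≤ 4 := by
      refine (norm_sub_le _ _).trans ?_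
      rw [norm_mul, norm_mul]
      have e2 := norm_fd_le (hHn z) k j
      have e3 := norm_fd_le (hHn z) j j
      have e4 : ‖H z j j‖ ≤ 1 := by rw [hGH z]; exact norm_Phi_le _ _ _
      have e5 : ‖H z k j‖ ≤ 1 := by rw [hGH z]; exact norm_Phi_le _ _ _
      nlinarith [norm_nonneg (H z j j), norm_nonneg (H z k j),
        norm_nonneg (fderiv ℝ H z 1 k j), norm_nonneg (fderiv ℝ H z 1 j j)]
    have e6 : (1 / (N : ℝ)) ^ 2 ≤ ‖H z j j‖ ^ 2 := pow_le_pow_left₀ (by positivity) hHj1 2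
    have e7 : 0 < (1 / (N : ℝ)) ^ 2 := by positivity
    calc ‖fderiv ℝ H z 1 k j * H z j j - H z k j * fderiv ℝ H z 1 j j‖ / ‖H z j j‖ ^ 2
        ≤ 4 / (1 / (N : ℝ)) ^ 2 := by gcongr
      _ = 4 * (N : ℝ) ^ 2 := by field_simp
      _ ≤ R := by
          rw [hR]
  · rw [hv, smul_smul, mul_inv_cancel₀ hGj, one_smul]
  · have hGd : ∀ k, HasDerivAt (fun z => G z k) (deriv (fun z => G z k) z) z := fun k =>
      (differentiableAt_pi.1 (hG z) k).hasDerivAt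
    have h2 : deriv G z = fun k => deriv (fun z => G z k) z := by
      exact (hasDerivAt_pi.2 hGd).deriv
    rw [h2]
    funext k
    have hev : (fun x => G x k) =ᶠ[𝓝 z] fun x => G x j * chart j (H x) k := by
      filter_upwards [(hGd j).continuousAt.eventually_ne hGj] with x hx
      rw [hGH x, chart_Phi (hG0 x) hx, Pi.smul_apply, smul_eq_mul, ← mul_assoc,
        mul_inv_cancel₀ hx, one_mul]
    rw [hev.deriv_eq]
    have h3 : HasDerivAt (fun x => G x j * chart j (H x) k) _ z :=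
      (hGd j).mul (hasDerivAt_chart hHol hHj k)
    rw [h3.deriv, Pi.add_apply, Pi.smul_apply, Pi.smul_apply, smul_eq_mul, smul_eq_mul]
    ring

/-- **Brody's lemma for curves in a closed cone**, with a bound of the Wronskians. -/
theorem brody_cone {K : Set (Fin N → ℂ)} (hK : IsClosed K) (hKs : ∀ x ∈ K, ∀ c : ℂ, c • x ∈ K)
    {g : ℂ → Fin N → ℂ}
    (hg : Differentiable ℂ g) (hg0 : ∀ z, g z ≠ 0) (hgK : ∀ z, g z ∈ K)
    (hne : ¬ ∀ z, Phi (g z) = Phi (g 0)) :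
    ∃ (G : ℂ → Fin N → ℂ) (R : ℝ), Differentiable ℂ G ∧ (∀ z, G z ≠ 0) ∧ (∀ z, G z ∈ K) ∧
      (¬ ∀ z, Phi (G z) = Phi (G 0)) ∧ ∀ z a b,
        ‖G z a * deriv G z b - G z b * deriv G z a‖ ≤ R * ‖G z‖ ^ 2 := by
  obtain ⟨G, R, h1, h2, h3, h4, h5⟩ := brody_cone0 hK hKs hg hg0 hgK hne
  refine ⟨G, 2 * R, h1, h2, h3, h4, fun z a b => ?_⟩
  obtain ⟨j, v, w, t, hv, hvj, hw, hj, hG, hG'⟩ := h5 z
  have e1 : ‖G z‖ = ‖G z j‖ := by
    conv_lhs => rw [hG, norm_smul, hv, mul_one]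
  have ea : G z a = G z j * v a := by
    conv_lhs => rw [hG]
    rfl
  have eb : G z b = G z j * v b := by
    conv_lhs => rw [hG]
    rfl
  have da : deriv G z a = G z j * w a + t * v a := by rw [hG']; rfl
  have db : deriv G z b = G z j * w b + t * v b := by rw [hG']; rfl
  have e2 : G z a * deriv G z b - G z b * deriv G z a =
      G z j ^ 2 * (v a * w b - v b * w a) := by
    rw [ea, eb, da, db]; ring
  rw [e2, e1, norm_mul, norm_pow]
  have f1 : ‖v a * w b - v b * w a‖ ≤ 2 * R := by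
    refine (norm_sub_le _ _).trans ?_
    rw [norm_mul, norm_mul]
    have g1 : ‖v a‖ ≤ 1 := hv ▸ norm_le_pi_norm v a
    have g2 : ‖v b‖ ≤ 1 := hv ▸ norm_le_pi_norm v b
    have g3 : ‖w a‖ ≤ R := (norm_le_pi_norm w a).trans hw
    have g4 : ‖w b‖ ≤ R := (norm_le_pi_norm w b).trans hw
    nlinarith [norm_nonneg (v a), norm_nonneg (v b), norm_nonneg (w a), norm_nonneg (w b)]
  calc ‖G z j‖ ^ 2 * ‖v a * w b - v b * w a‖ ≤ ‖G z j‖ ^ 2 * (2 * R) := by gcongr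
    _ = 2 * R * ‖G z j‖ ^ 2 := by ring

end Pool.Agent.K7.H11.LM
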