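import Pool.Agent.K7.H11.LM.Main

/-! Hyperbolic intersections of low multidegree on an arbitrary projective variety; openness with
respect to the coefficients. -/

set_option autoImplicit false

namespace Pool.Agent.K7.H11.LM

open MvPolynomial
open Pool.Agent.K7.H11.GG

/-- the exponents of the monomials of degree `e` -/
def mons (N e : ℕ) : Finset (Fin N →₀ ℕ) := (Finset.univ : Finset (Fin N)).finsuppAntidiag e

lemma mem_mons {N e : ℕ} {p : MvPolynomial (Fin N) ℂ} (hp : p.IsHomogeneous e) {m : Fin N →₀ ℕ}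
    (hm : p.coeff m ≠ 0) : m ∈ mons N e := by
  unfold mons
  rw [Finset.mem_finsuppAntidiag]
  refine ⟨?_, Finset.subset_univ _⟩
  have := hp hm
  rw [Finsupp.weight_apply, Finsupp.sum_fintype _ _ (fun i => by simp)] at this
  simpa using this

/-- forms with small coefficients are small on the unit ball -/
lemma small {N e : ℕ} {p : MvPolynomial (Fin N) ℂ} (hp : p.IsHomogeneous e) {ε : ℝ}
    (h : ∀ m, ‖p.coeff m‖ ≤ ε) {u : Fin N → ℂ} (hu : ‖u‖ ≤ 1) :
    ‖eval u p‖ ≤ (mons N e).card * ε := by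
  rw [eval_eq']
  have h1 : ∑ m ∈ p.support, p.coeff m * ∏ i, u i ^ m i =
      ∑ m ∈ mons N e, p.coeff m * ∏ i, u i ^ m i := by
    refine Finset.sum_subset (fun m hm => mem_mons hp (mem_support_iff.1 hm)) fun m _ hm => ?_
    rw [notMem_support_iff.1 hm, zero_mul]
  rw [h1]
  refine (norm_sum_le _ _).trans ?_
  have h2 : ∀ m ∈ mons N e, ‖p.coeff m * ∏ i, u i ^ m i‖ ≤ ε := by
    intro m _
    rw [norm_mul, norm_prod]
    have h3 : ∏ i, ‖u i ^ m i‖ ≤ 1 := by
      refine Finset.prod_le_one (fun i _ => norm_nonneg _) fun i _ => ?_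
      rw [norm_pow]
      exact pow_le_one₀ (norm_nonneg _) ((norm_le_pi_norm u i).trans hu)
    calc ‖p.coeff m‖ * ∏ i, ‖u i ^ m i‖ ≤ ‖p.coeff m‖ * 1 := by gcongr
      _ ≤ ε := by rw [mul_one]; exact h m
  calc ∑ m ∈ mons N e, ‖p.coeff m * ∏ i, u i ^ m i‖ ≤ ∑ _m ∈ mons N e, ε :=
        Finset.sum_le_sum h2
    _ = _ := by rw [Finset.sum_const, nsmul_eq_mul]

/-- composition with forms -/
lemma hom_bind {N M a b : ℕ} {p : MvPolynomial (Fin M) ℂ} (hp : p.IsHomogeneous a)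
    {L : Fin M → MvPolynomial (Fin N) ℂ} (hL : ∀ i, (L i).IsHomogeneous b) :
    (bind₁ L p).IsHomogeneous (b * a) := by
  exact hp.aeval L hL

/-- **Hyperbolic intersections of low multidegree.** -/
theorem final (n r : ℕ) (d : Fin r → ℕ) (hd : ∀ l, 1 ≤ d l)
    (I : Fin (2 * n - 1) → Finset (Fin r)) (hI : ∀ i j, i ≠ j → Disjoint (I i) (I j))
    (hw : ∀ i, 3 ≤ ∑ l ∈ I i, (d l - 1))
    (N : ℕ) (S : Set (MvPolynomial (Fin (N + 1)) ℂ)) (hS : ∀ p ∈ S, ∃ a, p.IsHomogeneous a)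
    (e : ℕ) (he : 1 ≤ e) (L : Fin (n + r + 1) → MvPolynomial (Fin (N + 1)) ℂ)
    (hL : ∀ i, (L i).IsHomogeneous e)
    (hL0 : ∀ x, x ≠ 0 → (∀ p ∈ S, eval x p = 0) → ∃ i, eval x (L i) ≠ 0) :
    ∃ F0 : Fin r → MvPolynomial (Fin (N + 1)) ℂ, (∀ l, (F0 l).IsHomogeneous (e * d l)) ∧
      ∃ ε : ℝ, 0 < ε ∧ ∀ F : Fin r → MvPolynomial (Fin (N + 1)) ℂ,
        (∀ l, (F l).IsHomogeneous (e * d l)) →
        (∀ l m, ‖(F l).coeff m - (F0 l).coeff m‖ < ε) →
        ∀ f : ℂ → (Fin (N + 1) → ℂ), Differentiable ℂ f → (∀ z, f z ≠ 0) →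
          (∀ z, ∀ p ∈ S, eval (f z) p = 0) → (∀ z l, eval (f z) (F l) = 0) →
          ∀ z w, ∃ c : ℂ, f z = c • f w := by
  classical
  set s : Fin (2 * n - 1) → ℂ := fun i => ((i : ℕ) : ℂ) with hs
  have hsinj : Function.Injective s := fun i j h => Fin.ext (by
    have h' : ((i : ℕ) : ℂ) = ((j : ℕ) : ℂ) := h
    exact_mod_cast h')
  have hB0 : Brody (P0 n r d s I) := hyp0 d hd (by rw [Fintype.card_fin]; omega) hsinj I hI hw
  set F0 : Fin r → MvPolynomial (Fin (N + 1)) ℂ := fun l => bind₁ L (P0 n r d s I l) with hF0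
  have hF0h : ∀ l, (F0 l).IsHomogeneous (e * d l) := fun l => hom_bind (hom_P0 d s I l) hL
  refine ⟨F0, hF0h, ?_⟩
  -- the family with the equations of `Y`
  set Φ : S ⊕ Fin r → MvPolynomial (Fin (N + 1)) ℂ := Sum.elim (fun p => p.1) F0 with hΦ
  have hΦf : ∀ j, IsForm (Φ j) := by
    rintro (p | l)
    · exact hS p.1 p.2
    · exact ⟨_, hF0h l⟩
  have hΦB : Brody Φ := by
    intro f hf hf0 hfΦ z w
    have hfS : ∀ z, ∀ p ∈ S, eval (f z) p = 0 := fun z p hp => hfΦ z (Sum.inl ⟨p, hp⟩)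
    have hx0 : ∀ z, (fun i => eval (f z) (L i)) ≠ 0 := by
      intro z h
      obtain ⟨i, hi⟩ := hL0 (f z) (hf0 z) (hfS z)
      exact hi (congrFun h i)
    have hxd : Differentiable ℂ fun z => fun i => eval (f z) (L i) := by
      rw [differentiable_pi]
      exact fun i => diff_eval hf (L i)
    have hxP : ∀ z l, eval (fun i => eval (f z) (L i)) (P0 n r d s I l) = 0 := by
      intro z l
      have h1 := hfΦ z (Sum.inr l)
      change eval (f z) (bind₁ L (P0 n r d s I l)) = 0 at h1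
      rw [← h1, ← coe_aeval_eq_eval, ← coe_aeval_eq_eval]
      change _ = aeval (f z) (bind₁ L (P0 n r d s I l))
      rw [aeval_bind₁]
      rfl
    have hconst := hB0 _ hxd hx0 hxP
    obtain ⟨c, hc⟩ := const_of_image (N := N + 1) (d := e) (by omega) (S := S) (F := L) hS hL hL0
      hf hf0 hfS (fun w => by
        obtain ⟨c, hc⟩ := hconst w 0
        exact ⟨c, fun i => congrFun hc i⟩) w z
    exact ⟨c, hc⟩
  obtain ⟨ε0, hε0, hopen⟩ := open_brody hΦf hΦB
  set A : ℝ := ∑ l : Fin r, ((mons (N + 1) (e * d l)).card : ℝ) with hA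
  have hA0 : 0 ≤ A := Finset.sum_nonneg fun l _ => Nat.cast_nonneg _
  have hA1 : 0 < A + 1 := by linarith
  refine ⟨ε0 / (A + 1), div_pos hε0 hA1, fun F hF hclose f hf hf0 hfS hfF => ?_⟩
  have hB : Brody (Sum.elim (fun p : S => p.1) F) := by
    refine hopen _ ?_ ?_
    · rintro (p | l)
      · exact hS p.1 p.2
      · exact ⟨_, hF l⟩
    · rintro (p | l) u hu
      · change ‖eval u p.1 - eval u p.1‖ ≤ ε0
        rw [sub_self, norm_zero]
        exact hε0.le
      · change ‖eval u (F l) - eval u (F0 l)‖ ≤ ε0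
        rw [← map_sub]
        refine (small ((hF l).sub (hF0h l)) (ε := ε0 / (A + 1)) (fun m => ?_) hu).trans ?_
        · rw [coeff_sub]
          exact (hclose l m).le
        · have h1 : ((mons (N + 1) (e * d l)).card : ℝ) ≤ A :=
            Finset.single_le_sum (f := fun l => ((mons (N + 1) (e * d l)).card : ℝ))
              (fun l _ => Nat.cast_nonneg _) (Finset.mem_univ l)
          rw [mul_div_assoc', div_le_iff₀ (by linarith)]
          nlinarith
  refine hB f hf hf0 ?_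
  rintro z (p | l)
  · exact hfS z p.1 p.2
  · exact hfF z l

end Pool.Agent.K7.H11.LM
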