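import Mathlib

/-! Polynomials with vanishing Wronskian at `2 n - 1` points. -/

set_option autoImplicit false

namespace Pool.Agent.K7.H11.LM

open Polynomial

lemma natDegree_X_mul_derivative_le (p : ℂ[X]) {m : ℕ} (hm : p.natDegree ≤ m) :
    (X * derivative p).natDegree ≤ m := by
  rw [natDegree_le_iff_coeff_eq_zero]
  intro N hN
  rcases N with _ | N
  · omega
  · rw [coeff_X_mul, coeff_derivative, coeff_eq_zero_of_natDegree_lt (by omega), zero_mul]

lemma coeff_X_mul_derivative (p : ℂ[X]) (m : ℕ) :
    (X * derivative p).coeff m = m * p.coeff m := by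
  rcases m with _ | m
  · simp
  · rw [coeff_X_mul, coeff_derivative]
    push_cast
    ring

/-- the core case -/
theorem pen_core {n : ℕ} {p q : ℂ[X]} (hp : p.natDegree ≤ n) (hp0 : p ≠ 0)
    (hq : q.natDegree ≤ p.natDegree) {ι : Type} [Fintype ι] (hι : 2 * n ≤ Fintype.card ι + 1)
    {s : ι → ℂ} (hs : Function.Injective s)
    (h : ∀ i, p.eval (s i) * (derivative q).eval (s i) = q.eval (s i) * (derivative p).eval (s i)) :
    ∃ c : ℂ, q = C c * p := by
  set m := p.natDegree with hm
  set c := q.coeff m / p.leadingCoeff with hc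
  refine ⟨c, ?_⟩
  by_contra hne
  set q1 := q - C c * p with hq1
  have hq10 : q1 ≠ 0 := fun h0 => hne (sub_eq_zero.1 h0)
  have hlc : p.leadingCoeff ≠ 0 := leadingCoeff_ne_zero.2 hp0
  have hdeg : q1.natDegree ≤ m := by
    refine (natDegree_sub_le _ _).trans (max_le hq ((natDegree_C_mul_le _ _).trans le_rfl))
  have hcm : q1.coeff m = 0 := by
    rw [hq1, coeff_sub, coeff_C_mul, hc]
    change q.coeff m - q.coeff m / p.leadingCoeff * p.leadingCoeff = 0
    rw [div_mul_cancel₀ _ hlc, sub_self]
  have hlt : q1.natDegree < m := by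
    refine lt_of_le_of_ne hdeg fun he => hq10 ?_
    rw [← he] at hcm
    exact leadingCoeff_eq_zero.1 hcm
  set k := q1.natDegree with hk
  set W := p * derivative q1 - q1 * derivative p with hW
  have hW0 : W = 0 := by
    have hle : (X * W).natDegree ≤ m + k := by
      have e1 : X * W = p * (X * derivative q1) - q1 * (X * derivative p) := by
        rw [hW]; ring
      rw [e1]
      refine (natDegree_sub_le _ _).trans (max_le ?_ ?_)
      · exact natDegree_mul_le.trans (add_le_add le_rfl
          (natDegree_X_mul_derivative_le q1 le_rfl))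
      · refine natDegree_mul_le.trans ?_
        have := natDegree_X_mul_derivative_le p (m := m) le_rfl
        omega
    by_contra hWne
    have h1 : (X * W).natDegree = W.natDegree + 1 := by
      rw [mul_comm]; exact natDegree_mul_X hWne
    apply hWne
    refine eq_zero_of_natDegree_lt_card_of_eval_eq_zero W hs (fun i => ?_) (by omega)
    rw [hW, hq1]
    simp only [eval_sub, eval_mul, derivative_sub, derivative_mul, derivative_C, eval_C, eval_add,
      zero_mul, zero_add]
    linear_combination h i
  have hcoef : (X * W).coeff (m + k) = 0 := by rw [hW0, mul_zero, coeff_zero]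
  have e1 : X * W = p * (X * derivative q1) - (X * derivative p) * q1 := by
    rw [hW]; ring
  rw [e1, coeff_sub, coeff_mul_add_eq_of_natDegree_le (le_refl _)
    (natDegree_X_mul_derivative_le q1 le_rfl),
    coeff_mul_add_eq_of_natDegree_le (natDegree_X_mul_derivative_le p le_rfl) (le_refl _),
    coeff_X_mul_derivative, coeff_X_mul_derivative] at hcoef
  have h2 : p.coeff m * q1.coeff k * ((k : ℂ) - m) = 0 := by linear_combination hcoef
  have h3 : p.coeff m ≠ 0 := hlc
  have h4 : q1.coeff k ≠ 0 := leadingCoeff_ne_zero.2 hq10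
  have h5 : (k : ℂ) - m ≠ 0 := by
    intro h0
    have : (k : ℂ) = m := sub_eq_zero.1 h0
    have : k = m := by exact_mod_cast this
    omega
  exact mul_ne_zero (mul_ne_zero h3 h4) h5 h2

/-- Two polynomials of degree at most `n`, whose Wronskian vanishes at `2 n - 1` points, are
proportional. -/
theorem pen {n : ℕ} {p q : ℂ[X]} (hp : p.natDegree ≤ n) (hq : q.natDegree ≤ n) (hp0 : p ≠ 0)
    {ι : Type} [Fintype ι] (hι : 2 * n ≤ Fintype.card ι + 1)
    {s : ι → ℂ} (hs : Function.Injective s)
    (h : ∀ i, p.eval (s i) * (derivative q).eval (s i) = q.eval (s i) * (derivative p).eval (s i)) :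
    ∃ c : ℂ, q = C c * p := by
  rcases le_total q.natDegree p.natDegree with h1 | h1
  · exact pen_core hp hp0 h1 hι hs h
  · by_cases hq0 : q = 0
    · exact ⟨0, by rw [hq0, C_0, zero_mul]⟩
    · obtain ⟨c, hc⟩ := pen_core hq hq0 h1 hι hs fun i => (h i).symm
      have hc0 : c ≠ 0 := by
        rintro rfl
        rw [C_0, zero_mul] at hc
        exact hp0 hc
      refine ⟨c⁻¹, ?_⟩
      rw [hc, ← mul_assoc, ← C_mul, inv_mul_cancel₀ hc0, C_1, one_mul]

end Pool.Agent.K7.H11.LM
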