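import Pool.Agent.K7.H11.LM.Block
import Pool.Agent.K7.H11.LM.Pen
import Pool.Agent.K7.H11.LM.Open

/-! Hyperbolic complete intersections of low multidegree. -/

set_option autoImplicit false

namespace Pool.Agent.K7.H11.LM

open Pool.Agent.K7.H11.GG

variable {n r : ℕ}

/-- the coordinates: `n + 1` coefficients of a polynomial and `r` further coordinates -/
def cc (n r : ℕ) : Fin (n + 1) ⊕ Fin r ≃ Fin (n + r + 1) :=
  finSumFinEquiv.trans (finCongr (by omega))

/-- the polynomial with the coefficients `x` -/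
noncomputable def pol (x : Fin (n + r + 1) → ℂ) : Polynomial ℂ :=
  ∑ j : Fin (n + 1), Polynomial.C (x (cc n r (Sum.inl j))) * Polynomial.X ^ (j : ℕ)

/-- the value at `s`, as a linear form -/
noncomputable def evF (n r : ℕ) (s : ℂ) : MvPolynomial (Fin (n + r + 1)) ℂ :=
  ∑ j : Fin (n + 1), MvPolynomial.C (s ^ (j : ℕ)) * MvPolynomial.X (cc n r (Sum.inl j))

/-- the value of the derivative at `s`, as a linear form -/
noncomputable def evD (n r : ℕ) (s : ℂ) : MvPolynomial (Fin (n + r + 1)) ℂ :=
  ∑ j : Fin (n + 1), MvPolynomial.C (((j : ℕ) : ℂ) * s ^ ((j : ℕ) - 1)) *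
    MvPolynomial.X (cc n r (Sum.inl j))

lemma eval_evF (s : ℂ) (x : Fin (n + r + 1) → ℂ) :
    MvPolynomial.eval x (evF n r s) = (pol x).eval s := by
  unfold evF pol
  rw [map_sum, Polynomial.eval_finsetSum]
  refine Finset.sum_congr rfl fun j _ => ?_
  rw [map_mul, MvPolynomial.eval_C, MvPolynomial.eval_X, Polynomial.eval_mul, Polynomial.eval_C,
    Polynomial.eval_pow, Polynomial.eval_X, mul_comm]

lemma eval_evD (s : ℂ) (x : Fin (n + r + 1) → ℂ) :
    MvPolynomial.eval x (evD n r s) = (Polynomial.derivative (pol x)).eval s := by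
  unfold evD pol
  rw [map_sum, Polynomial.derivative_sum, Polynomial.eval_finsetSum]
  refine Finset.sum_congr rfl fun j _ => ?_
  rw [map_mul, MvPolynomial.eval_C, MvPolynomial.eval_X, Polynomial.derivative_C_mul_X_pow,
    Polynomial.eval_mul, Polynomial.eval_C, Polynomial.eval_pow, Polynomial.eval_X]
  ring

lemma pol_coeff (x : Fin (n + r + 1) → ℂ) (j : Fin (n + 1)) :
    (pol x).coeff (j : ℕ) = x (cc n r (Sum.inl j)) := by
  unfold pol
  rw [Polynomial.finsetSum_coeff]
  rw [Finset.sum_eq_single j]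
  · rw [Polynomial.coeff_C_mul, Polynomial.coeff_X_pow, if_pos rfl, mul_one]
  · intro b _ hb
    rw [Polynomial.coeff_C_mul, Polynomial.coeff_X_pow, if_neg, mul_zero]
    exact fun h => hb (Fin.ext h.symm)
  · intro h
    exact absurd (Finset.mem_univ j) h

lemma pol_natDegree (x : Fin (n + r + 1) → ℂ) : (pol x).natDegree ≤ n := by
  unfold pol
  refine Polynomial.natDegree_sum_le_of_forall_le _ _ fun j _ => ?_
  exact (Polynomial.natDegree_C_mul_X_pow_le _ _).trans (by omega)

open Classical in
/-- the equations -/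
noncomputable def P0 (n r : ℕ) (d : Fin r → ℕ) {ι : Type} (s : ι → ℂ) (I : ι → Finset (Fin r))
    (l : Fin r) : MvPolynomial (Fin (n + r + 1)) ℂ :=
  if h : ∃ i, l ∈ I i then
    MvPolynomial.X (cc n r (Sum.inr l)) ^ d l -
      (evF n r (s h.choose) ^ d l - (MvPolynomial.C (tt l) * evD n r (s h.choose)) ^ d l)
  else MvPolynomial.X (cc n r (Sum.inr l)) ^ d l

lemma hom_lin (c : Fin (n + 1) → ℂ) :
    (∑ j : Fin (n + 1), MvPolynomial.C (c j) * MvPolynomial.X (cc n r (Sum.inl j))).IsHomogeneous
      1 := by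
  refine MvPolynomial.IsHomogeneous.sum _ _ _ fun j _ => ?_
  have h1 := (MvPolynomial.isHomogeneous_C (Fin (n + r + 1)) (c j)).mul
    (MvPolynomial.isHomogeneous_X ℂ (cc n r (Sum.inl j)))
  simpa using h1

lemma hom_P0 (d : Fin r → ℕ) {ι : Type} (s : ι → ℂ) (I : ι → Finset (Fin r)) (l : Fin r) :
    (P0 n r d s I l).IsHomogeneous (d l) := by
  unfold P0
  have hX := (MvPolynomial.isHomogeneous_X ℂ (cc n r (Sum.inr l))).pow (d l)
  rw [one_mul] at hX
  split_ifs with h
  · refine hX.sub ?_
    have h1 := (hom_lin (n := n) (r := r) fun j => (s h.choose) ^ (j : ℕ)).pow (d l)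
    have h2 := ((MvPolynomial.isHomogeneous_C (Fin (n + r + 1)) (tt l)).mul
      (hom_lin (n := n) (r := r)
        fun j => ((j : ℕ) : ℂ) * (s h.choose) ^ ((j : ℕ) - 1))).pow (d l)
    rw [one_mul] at h1
    rw [zero_add, one_mul] at h2
    exact h1.sub h2
  · exact hX

/-- **The hyperbolic varieties.** -/
theorem hyp0 (d : Fin r → ℕ) (hd : ∀ l, 1 ≤ d l) {ι : Type} [Fintype ι]
    (hι : 2 * n ≤ Fintype.card ι + 1) {s : ι → ℂ} (hs : Function.Injective s)
    (I : ι → Finset (Fin r)) (hI : ∀ i j, i ≠ j → Disjoint (I i) (I j))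
    (hw : ∀ i, 3 ≤ ∑ l ∈ I i, (d l - 1)) : Brody (P0 n r d s I) := by
  classical
  intro f hf hf0 hfP
  have hfd : ∀ k, Differentiable ℂ fun z => f z k := fun k => differentiable_pi.1 hf k
  -- the equations
  have heq : ∀ (z : ℂ) (i : ι) (l : Fin r), l ∈ I i → f z (cc n r (Sum.inr l)) ^ d l =
      (pol (f z)).eval (s i) ^ d l -
        (tt l * (Polynomial.derivative (pol (f z))).eval (s i)) ^ d l := by
    intro z i l hl
    have h : ∃ i, l ∈ I i := ⟨i, hl⟩
    have hi : h.choose = i := by
      by_contra hne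
      exact Finset.disjoint_left.1 (hI _ _ hne) h.choose_spec hl
    have h1 := hfP z l
    unfold P0 at h1
    rw [dif_pos h, hi] at h1
    rw [map_sub, map_sub, map_pow, map_pow, map_pow, map_mul, MvPolynomial.eval_X,
      MvPolynomial.eval_C, eval_evF, eval_evD] at h1
    exact sub_eq_zero.1 h1
  have heq' : ∀ (z : ℂ) (l : Fin r), (¬ ∃ i, l ∈ I i) → f z (cc n r (Sum.inr l)) = 0 := by
    intro z l h
    have h1 := hfP z l
    unfold P0 at h1
    rw [dif_neg h, map_pow, MvPolynomial.eval_X] at h1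
    exact pow_eq_zero_iff (by have := hd l; omega) |>.1 h1
  -- the polynomials do not vanish
  have hpol0 : ∀ z, pol (f z) ≠ 0 := by
    intro z h0
    apply hf0 z
    funext k
    obtain ⟨k', rfl⟩ := (cc n r).surjective k
    rcases k' with j | l
    · rw [← pol_coeff (f z) j, h0, Polynomial.coeff_zero]; rfl
    · by_cases h : ∃ i, l ∈ I i
      · obtain ⟨i, hi⟩ := h
        have h1 := heq z i l hi
        have hdl := hd l
        rw [h0, Polynomial.derivative_zero, Polynomial.eval_zero, mul_zero,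
          zero_pow (by omega), sub_zero] at h1
        exact pow_eq_zero_iff (by omega) |>.1 h1
      · exact heq' z l h
  -- the curves in the pencils
  have hpolD : ∀ a : ℂ, Differentiable ℂ fun z => (pol (f z)).eval a := by
    intro a
    have : (fun z => (pol (f z)).eval a) = fun z => ∑ j : Fin (n + 1),
        f z (cc n r (Sum.inl j)) * a ^ (j : ℕ) := by
      funext z
      rw [← eval_evF]
      unfold evF
      rw [map_sum]
      refine Finset.sum_congr rfl fun j _ => ?_
      rw [map_mul, MvPolynomial.eval_C, MvPolynomial.eval_X, mul_comm]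
    rw [this]
    exact Differentiable.fun_sum fun j _ => (hfd _).mul_const _
  have hpolD' : ∀ a : ℂ, Differentiable ℂ fun z =>
      (Polynomial.derivative (pol (f z))).eval a := by
    intro a
    have : (fun z => (Polynomial.derivative (pol (f z))).eval a) = fun z => ∑ j : Fin (n + 1),
        f z (cc n r (Sum.inl j)) * (((j : ℕ) : ℂ) * a ^ ((j : ℕ) - 1)) := by
      funext z
      rw [← eval_evD]
      unfold evD
      rw [map_sum]
      refine Finset.sum_congr rfl fun j _ => ?_
      rw [map_mul, MvPolynomial.eval_C, MvPolynomial.eval_X, mul_comm]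
    rw [this]
    exact Differentiable.fun_sum fun j _ => (hfd _).mul_const _
  have hblock : ∀ i z w, (pol (f z)).eval (s i) * (Polynomial.derivative (pol (f w))).eval (s i) =
      (pol (f w)).eval (s i) * (Polynomial.derivative (pol (f z))).eval (s i) := by
    intro i z w
    exact block (J := I i) (d := d) (fun l _ => hd l) (hw i) (hpolD (s i)) (hpolD' (s i))
      (y := fun l z => f z (cc n r (Sum.inr l))) (fun l => hfd _)
      (fun l hl z => heq z i l hl) z w
  have hprop : ∀ z, ∃ c : ℂ, pol (f z) = Polynomial.C c * pol (f 0) := fun z =>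
    pen (pol_natDegree _) (pol_natDegree _) (hpol0 0) hι hs fun i => hblock i 0 z
  choose c hc using hprop
  have hc0 : ∀ z, c z ≠ 0 := by
    intro z h0
    apply hpol0 z
    rw [hc z, h0, Polynomial.C_0, zero_mul]
  have hcj : ∀ z j, f z (cc n r (Sum.inl j)) = c z * f 0 (cc n r (Sum.inl j)) := by
    intro z j
    rw [← pol_coeff (f z) j, ← pol_coeff (f 0) j, hc z, Polynomial.coeff_C_mul]
  obtain ⟨j0, hj0⟩ : ∃ j, f 0 (cc n r (Sum.inl j)) ≠ 0 := by
    by_contra hcon
    push Not at hcon
    apply hpol0 0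
    unfold pol
    refine Finset.sum_eq_zero fun j _ => ?_
    rw [hcon j, Polynomial.C_0, zero_mul]
  obtain ⟨g, hg⟩ : ∃ g : ℂ → ℂ, g = fun z => f z (cc n r (Sum.inl j0)) := ⟨_, rfl⟩
  have hgd : Differentiable ℂ g := by rw [hg]; exact hfd _
  have hgc : ∀ z, g z = c z * g 0 := fun z => by rw [hg]; exact hcj z j0
  have hg00 : g 0 ≠ 0 := by rw [hg]; exact hj0
  have hg0 : ∀ z, g z ≠ 0 := fun z => by rw [hgc]; exact mul_ne_zero (hc0 z) hg00
  have hall : ∀ k, ∃ e : ℂ, ∀ z, f z k = e * g z := by
    intro k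
    obtain ⟨k', rfl⟩ := (cc n r).surjective k
    rcases k' with j | l
    · refine ⟨f 0 (cc n r (Sum.inl j)) / g 0, fun z => ?_⟩
      rw [hcj z j, hgc z]
      field_simp
    · by_cases h : ∃ i, l ∈ I i
      · obtain ⟨i, hi⟩ := h
        have hdl := hd l
        refine const_of_pow (hfd _) hgd (e := d l) (by omega) hg0
          (c := f 0 (cc n r (Sum.inr l)) ^ d l / g 0 ^ d l) fun z => ?_
        have h1 := heq z i l hi
        have h2 := heq 0 i l hi
        rw [hc z, Polynomial.derivative_mul, Polynomial.derivative_C, zero_mul, zero_add,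
          Polynomial.eval_mul, Polynomial.eval_mul, Polynomial.eval_C] at h1
        rw [h1, h2, hgc z]
        field_simp
        ring
      · exact ⟨0, fun z => by rw [zero_mul]; exact heq' z l h⟩
  choose e he using hall
  intro z w
  refine ⟨g z / g w, ?_⟩
  funext k
  rw [Pi.smul_apply, smul_eq_mul, he k z, he k w]
  have := hg0 w
  field_simp

end Pool.Agent.K7.H11.LM
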